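import Pool.Agent.H98.CE.Targets

/-!
# CNT: the sum of the weights of the lists
-/

set_option autoImplicit false

namespace Pool.Agent.H17.CEL

open Pool.Agent.H98.CE

theorem lp_nonneg (r : ℕ → ℝ) (hr : ∀ d, 0 ≤ r d) : ∀ L : List ℕ, 0 ≤ lp r L
  | [] => by simp [Pool.Agent.H98.CE.lp]
  | [_] => by simp [Pool.Agent.H98.CE.lp]
  | i :: j :: L => by
      rw [Pool.Agent.H98.CE.lp]
      exact mul_nonneg (hr _) (lp_nonneg r hr (j :: L))

theorem pf_CNT (hGLF : T_GLF) : T_CNT := by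
  intro α κ n G m i hα hκ hn
  obtain ⟨r, hr⟩ : ∃ r : ℕ → ℝ, r = fun g => lk α κ (g * n) := ⟨_, rfl⟩
  obtain ⟨γ, hγ⟩ : ∃ γ : ℝ, γ = 1 / (1 + α) := ⟨_, rfl⟩
  obtain ⟨Q, hQ⟩ : ∃ Q : ℝ, Q = κ ^ (1 / (1 + α)) / n *
    ∑ g ∈ Finset.Ico 2 (G + 2), 1 / ((g : ℝ) + 1) := ⟨_, rfl⟩
  rw [← hr, ← hQ, ← hγ]
  have hr0 : ∀ d, 0 ≤ r d := by
    intro d
    rw [hr]
    show 0 ≤ κ * ((d * n : ℕ) : ℝ) ^ (-(1 + α))
    exact mul_nonneg hκ.le (Real.rpow_nonneg (Nat.cast_nonneg _) _)
  have hn0 : (0 : ℝ) < n := by exact_mod_cast hn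
  have hrg : ∀ g : ℕ, r (g + 1) ^ γ = κ ^ γ / n * (1 / ((g : ℝ) + 1)) := by
    intro g
    have e : r (g + 1) = κ * (((g : ℝ) + 1) * n) ^ (-(1 + α)) := by
      rw [hr]
      show κ * (((g + 1) * n : ℕ) : ℝ) ^ (-(1 + α)) = _
      push_cast
      rfl
    have h0 : 0 < ((g : ℝ) + 1) * n := by positivity
    rw [e, Real.mul_rpow hκ.le (Real.rpow_nonneg h0.le _), ← Real.rpow_mul h0.le]
    have e2 : -(1 + α) * γ = -1 := by
      rw [hγ]
      have : 1 + α ≠ 0 := by linarith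
      field_simp
    rw [e2, Real.rpow_neg_one]
    have : (g : ℝ) + 1 ≠ 0 := by positivity
    field_simp
  induction m generalizing i with
  | zero =>
    rw [pow_zero]
    show ∑ L ∈ ({[i]} : Finset (List ℕ)), lp r L ^ γ = 1
    rw [Finset.sum_singleton]
    show (1 : ℝ) ^ γ = 1
    exact Real.one_rpow _
  | succ m ih =>
    have hhead : ∀ k, ∀ L ∈ gl G m k, ∃ L', L = k :: L' := by
      intro k L hL
      have h := ((hGLF G m k).2 L hL).2.2.1
      cases L with
      | nil => simp at h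
      | cons a L' =>
        simp only [List.head?_cons, Option.some.injEq] at h
        exact ⟨L', by rw [h]⟩
    show ∑ L ∈ (Finset.Ico 2 (G + 2)).biUnion
      (fun g => (gl G m (i + g)).image (List.cons i)), lp r L ^ γ = Q ^ (m + 1)
    rw [Finset.sum_biUnion]
    · have hin : ∀ g ∈ Finset.Ico 2 (G + 2),
          ∑ L ∈ (gl G m (i + g)).image (List.cons i), lp r L ^ γ =
          (κ ^ γ / n * (1 / ((g : ℝ) + 1))) * Q ^ m := by
        intro g _
        rw [Finset.sum_image (fun a _ b _ hab => (List.cons.inj hab).2), ← ih (i + g),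
          Finset.mul_sum]
        refine Finset.sum_congr rfl fun L hL => ?_
        obtain ⟨L', rfl⟩ := hhead _ L hL
        have e : lp r (i :: (i + g) :: L') = r (g + 1) * lp r ((i + g) :: L') := by
          rw [Pool.Agent.H98.CE.lp]
          congr 2
          omega
        rw [e, Real.mul_rpow (hr0 _) (lp_nonneg r hr0 _), hrg]
      rw [Finset.sum_congr rfl hin, ← Finset.sum_mul, ← Finset.mul_sum, pow_succ, mul_comm]
      congr 1
      rw [hQ, hγ]
    · intro g _ g' _ hgg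
      rw [Function.onFun, Finset.disjoint_left]
      intro L hL hL'
      obtain ⟨A, hA, rfl⟩ := Finset.mem_image.1 hL
      obtain ⟨A', hA', hAA⟩ := Finset.mem_image.1 hL'
      have h1 : A' = A := (List.cons.inj hAA).2
      subst h1
      obtain ⟨B, hB⟩ := hhead _ _ hA
      obtain ⟨B', hB'⟩ := hhead _ _ hA'
      rw [hB] at hB'
      have h2 := (List.cons.inj hB').1
      exact hgg (by omega)

end Pool.Agent.H17.CEL
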