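import Pool.Agent.H98.CE.Targets

/-!
# TL2: one term on the event `sg`
-/

set_option autoImplicit false

open MeasureTheory ProbabilityTheory Filter Topology
open Pool.Agent.H95 Pool.Agent.H95.Cop
open Pool.Agent.H55.CG (pz VV Mo)

namespace Pool.Agent.H17.CEL

open Pool.Agent.H98.CE

theorem Mo_pos (ν : Measure ℝ) [IsProbabilityMeasure ν]
    (hI : ∀ t : ℝ, Integrable (fun z => Real.exp (t * z)) ν) (p : ℝ) : 0 < Mo ν p := by
  unfold Mo
  exact integral_exp_pos (hI p)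

open Classical in
theorem pf_TL2 (hTL1 : T_TL1) (hAAM : T_AAM) : T_TL2 := by
  intro ν _ hI γ y0 ℓ aY aV np S T a b hγ hy0 hℓ haY hST hTnp ha1 ha2 hb1 hb2 hM1 hM2 hcomp
    y y' z z' hy1 hyy' hy'2 hz1 hzz' hz'2
  have hA0 : 0 < Mo ν γ := Mo_pos ν hI γ
  have hB0 : 0 < Mo ν (γ / 2) := Mo_pos ν hI _
  have hcomp' : Mo ν (γ / 2) ^ (aY * ℓ) ≤ y0 * Mo ν γ ^ (aY * ℓ) := by
    rw [mul_comm aY ℓ, pow_mul, pow_mul]
    exact hcomp
  have hST' : (S + 1) * (aY + aV) ≤ T * (aY + aV) := Nat.mul_le_mul_right _ hST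
  have hab : (a + 1) * ℓ ≤ b * ℓ := Nat.mul_le_mul_right _ (by omega)
  have hy'z : y' ≤ z := by omega
  obtain ⟨I0, hI0⟩ : ∃ I0 : ℝ, I0 =
    Mo ν (γ / 2) ^ ((y' - y) + (z' - z)) * Mo ν γ ^ (z - y') := ⟨_, rfl⟩
  have hI0pos : 0 < I0 := by
    rw [hI0]
    exact mul_pos (pow_pos hB0 _) (pow_pos hA0 _)
  obtain ⟨f, hf⟩ : ∃ f : (ℕ → ℝ) → ℝ, f = fun x => Real.exp (γ * ey x y y' z z') := ⟨_, rfl⟩
  have hf0 : ∀ x, 0 < f x := by
    intro x
    rw [hf]
    exact Real.exp_pos _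
  obtain ⟨hfi, hfv⟩ : Integrable f (iid ν) ∧ ∫ x, f x ∂(iid ν) = I0 := by
    have h := (hTL1 ν hI γ 0 y y' z z' 0 0 hyy' hy'z hzz' le_rfl).1 (Or.inl (Nat.zero_le _))
    simp only [zero_mul, add_zero, Nat.sub_self, pow_zero, mul_one] at h
    rw [hf, hI0]
    exact h
  obtain ⟨θ, hθ⟩ : ∃ θ : ℕ → ℝ, θ = fun k => if S < k ∧ k ≤ T then -(γ / 2) else γ / 2 :=
    ⟨_, rfl⟩
  obtain ⟨F, hF⟩ : ∃ F : ℕ → (ℕ → ℝ) → ℝ, F = fun k x =>
    Real.exp (γ * ey x y y' z z' + θ k * hy ℓ aY aV x k) := ⟨_, rfl⟩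
  have hF0 : ∀ k x, 0 < F k x := by
    intro k x
    rw [hF]
    exact Real.exp_pos _
  have hmom : ∀ k, Integrable (F k) (iid ν) ∧ ∫ x, F k x ∂(iid ν) ≤ I0 * y0 := by
    intro k
    obtain ⟨u, hu⟩ : ∃ u : ℕ, u = k * (aY + aV) * ℓ := ⟨_, rfl⟩
    obtain ⟨v, hv⟩ : ∃ v : ℕ, v = (k * (aY + aV) + aY) * ℓ := ⟨_, rfl⟩
    have hFk : F k = fun x => Real.exp (γ * ey x y y' z z' + θ k * H x u v) := by
      rw [hF, hu, hv]
      rfl
    have hvu : v = u + aY * ℓ := by rw [hv, hu, add_mul]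
    have huv : u ≤ v := by omega
    have hvu' : v - u = aY * ℓ := by omega
    by_cases hk : S < k ∧ k ≤ T
    · have hθk : θ k = -(γ / 2) := by
        rw [hθ]
        exact if_pos hk
      have h1 : (a + 1) * ℓ ≤ u := by
        rw [hu]
        refine Nat.mul_le_mul_right _ ?_
        have : (S + 1) * (aY + aV) ≤ k * (aY + aV) := Nat.mul_le_mul_right _ hk.1
        omega
      have h2 : v ≤ b * ℓ := by
        rw [hv]
        refine Nat.mul_le_mul_right _ ?_
        have : k * (aY + aV) ≤ T * (aY + aV) := Nat.mul_le_mul_right _ hk.2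
        omega
      obtain ⟨hi, he⟩ := (hTL1 ν hI γ (θ k) y y' z z' u v hyy' hy'z hzz' huv).2
        (by omega) (by omega)
      refine ⟨by rw [hFk]; exact hi, ?_⟩
      rw [hFk, he, hvu', hθk, show γ + -(γ / 2) = γ / 2 by ring, hI0]
      have h3 : aY * ℓ ≤ z - y' := by omega
      have h4 := pow_sub_mul_pow (Mo ν γ) h3
      calc Mo ν (γ / 2) ^ ((y' - y) + (z' - z)) * Mo ν γ ^ (z - y' - aY * ℓ) *
            Mo ν (γ / 2) ^ (aY * ℓ)
          ≤ Mo ν (γ / 2) ^ ((y' - y) + (z' - z)) * Mo ν γ ^ (z - y' - aY * ℓ) *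
            (y0 * Mo ν γ ^ (aY * ℓ)) := by
            refine mul_le_mul_of_nonneg_left hcomp' ?_
            exact mul_nonneg (pow_nonneg hB0.le _) (pow_nonneg hA0.le _)
        _ = Mo ν (γ / 2) ^ ((y' - y) + (z' - z)) *
            (Mo ν γ ^ (z - y' - aY * ℓ) * Mo ν γ ^ (aY * ℓ)) * y0 := by ring
        _ = Mo ν (γ / 2) ^ ((y' - y) + (z' - z)) * Mo ν γ ^ (z - y') * y0 := by rw [h4]
    · have hθk : θ k = γ / 2 := by
        rw [hθ]
        exact if_neg hk
      have h12 : v ≤ y ∨ z' ≤ u := by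
        by_cases hkS : k ≤ S
        · left
          have h1 : v ≤ a * ℓ := by
            rw [hv]
            refine Nat.mul_le_mul_right _ ?_
            have : k * (aY + aV) ≤ S * (aY + aV) := Nat.mul_le_mul_right _ hkS
            omega
          omega
        · right
          have h1 : T + 1 ≤ k := by
            by_contra h
            exact hk ⟨by omega, by omega⟩
          have h2 : (b + 1) * ℓ ≤ u := by
            rw [hu]
            refine Nat.mul_le_mul_right _ ?_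
            have : (T + 1) * (aY + aV) ≤ k * (aY + aV) := Nat.mul_le_mul_right _ h1
            omega
          omega
      obtain ⟨hi, he⟩ := (hTL1 ν hI γ (θ k) y y' z z' u v hyy' hy'z hzz' huv).1 h12
      refine ⟨by rw [hFk]; exact hi, ?_⟩
      rw [hFk, he, hvu', hθk, ← hI0]
      refine mul_le_mul_of_nonneg_left ?_ hI0pos.le
      refine le_trans hcomp' ?_
      have : Mo ν γ ^ (aY * ℓ) ≤ 1 := pow_le_one₀ hA0.le hM1
      nlinarith
  have hms : MeasurableSet {x : ℕ → ℝ | sg ℓ aY aV np S T x} :=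
    (hAAM (PMF.pure 0) ℓ 0 0 aY aV np S T).2.1
  obtain ⟨L, hL⟩ : ∃ L : (ℕ → ℝ) → ℝ, L = fun x =>
    if sg ℓ aY aV np S T x then Real.exp (γ * ey x y y' z z') else 0 := ⟨_, rfl⟩
  have hLp : ∀ x, sg ℓ aY aV np S T x → L x = f x := by
    intro x hx
    rw [hL, hf]
    exact if_pos hx
  have hLn : ∀ x, ¬ sg ℓ aY aV np S T x → L x = 0 := by
    intro x hx
    rw [hL]
    exact if_neg hx
  have hL0 : ∀ x, 0 ≤ L x := by
    intro x
    by_cases hx : sg ℓ aY aV np S T x
    · rw [hLp x hx]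
      exact (hf0 x).le
    · rw [hLn x hx]
  have hLi : Integrable L (iid ν) := by
    have h1 : L = Set.indicator {x : ℕ → ℝ | sg ℓ aY aV np S T x} f := by
      funext x
      by_cases hx : sg ℓ aY aV np S T x
      · rw [Set.indicator_of_mem (show x ∈ {x : ℕ → ℝ | sg ℓ aY aV np S T x} from hx)]
        exact hLp x hx
      · rw [Set.indicator_of_notMem (show x ∉ {x : ℕ → ℝ | sg ℓ aY aV np S T x} from hx)]
        exact hLn x hx
    rw [h1]
    exact hfi.indicator hms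
  have hpt : ∀ x, f x - ∑ k ∈ Finset.range np, F k x ≤ L x := by
    intro x
    by_cases hx : sg ℓ aY aV np S T x
    · rw [hLp x hx]
      have : 0 ≤ ∑ k ∈ Finset.range np, F k x := Finset.sum_nonneg fun k _ => (hF0 k x).le
      linarith
    · rw [hLn x hx]
      unfold sg at hx
      push Not at hx
      obtain ⟨k, hk, hbad⟩ := hx
      have h1 : F k x ≤ ∑ k ∈ Finset.range np, F k x :=
        Finset.single_le_sum (f := fun k => F k x) (fun k _ => (hF0 k x).le)
          (Finset.mem_range.2 hk)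
      have h2 : 0 ≤ θ k * hy ℓ aY aV x k := by
        by_cases hkk : S < k ∧ k ≤ T
        · have hθk : θ k = -(γ / 2) := by
            rw [hθ]
            exact if_pos hkk
          have h3 : ¬ 0 < hy ℓ aY aV x k := by
            intro h3
            rcases hbad with h4 | h4
            · exact h4.2 hkk.1 |>.not_ge hkk.2
            · exact h4.1.not_gt h3
          rw [hθk]
          push Not at h3
          nlinarith
        · have hθk : θ k = γ / 2 := by
            rw [hθ]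
            exact if_neg hkk
          have h3 : 0 < hy ℓ aY aV x k := by
            rcases hbad with h4 | h4
            · exact h4.1
            · exact absurd h4.2 hkk
          rw [hθk]
          positivity
      have h3 : f x ≤ F k x := by
        rw [hf, hF]
        exact Real.exp_le_exp.2 (by linarith)
      linarith
  have hsumi : Integrable (fun x => ∑ k ∈ Finset.range np, F k x) (iid ν) :=
    integrable_finsetSum _ fun k _ => (hmom k).1
  have hmain : I0 * (1 - np * y0) ≤ ∫ x, L x ∂(iid ν) := by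
    have h1 : ∫ x, (f x - ∑ k ∈ Finset.range np, F k x) ∂(iid ν) ≤ ∫ x, L x ∂(iid ν) :=
      integral_mono (hfi.sub hsumi) hLi hpt
    rw [integral_sub hfi hsumi, integral_finsetSum _ (fun k _ => (hmom k).1), hfv] at h1
    have h2 : ∑ k ∈ Finset.range np, ∫ x, F k x ∂(iid ν) ≤ ∑ _k ∈ Finset.range np, I0 * y0 :=
      Finset.sum_le_sum fun k _ => (hmom k).2
    rw [Finset.sum_const, Finset.card_range, nsmul_eq_mul] at h2
    nlinarith
  have hgoal : ∫ x : ℕ → ℝ, (if sg ℓ aY aV np S T x then Real.exp (γ * ey x y y' z z') else 0)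
      ∂(iid ν) = ∫ x, L x ∂(iid ν) := by rw [hL]
  rw [hgoal]
  by_cases hneg : 1 - (np : ℝ) * y0 ≤ 0
  · have h1 : (Mo ν (γ / 2) ^ ℓ) ^ 2 * (Mo ν γ ^ ℓ) ^ ((T - S + 1) * (aY + aV)) *
        (1 - np * y0) ≤ 0 := by
      refine mul_nonpos_of_nonneg_of_nonpos ?_ hneg
      exact mul_nonneg (pow_nonneg (pow_nonneg hB0.le _) _) (pow_nonneg (pow_nonneg hA0.le _) _)
    exact le_trans h1 (integral_nonneg hL0)
  · push Not at hneg
    refine le_trans ?_ hmain
    refine mul_le_mul_of_nonneg_right ?_ hneg.le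
    rw [hI0, ← pow_mul, ← pow_mul]
    have hya : (a + 1) * ℓ = a * ℓ + ℓ := by ring
    have hzb : (b + 1) * ℓ = b * ℓ + ℓ := by ring
    have h1 : Mo ν (γ / 2) ^ (ℓ * 2) ≤ Mo ν (γ / 2) ^ ((y' - y) + (z' - z)) :=
      pow_le_pow_of_le_one hB0.le hM2 (by omega)
    have h2 : Mo ν γ ^ (ℓ * ((T - S + 1) * (aY + aV))) ≤ Mo ν γ ^ (z - y') := by
      refine pow_le_pow_of_le_one hA0.le hM1 ?_
      have h3 : (b + 1) * ℓ ≤ (T + 1) * (aY + aV) * ℓ := Nat.mul_le_mul_right _ (by omega)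
      have h4 : (S * (aY + aV) + aY) * ℓ ≤ a * ℓ := Nat.mul_le_mul_right _ ha1
      have h5 : ℓ * ((T - S + 1) * (aY + aV)) + S * (aY + aV) * ℓ =
          (T + 1) * (aY + aV) * ℓ := by
        obtain ⟨d, rfl⟩ := Nat.exists_eq_add_of_lt hST
        have : S + d + 1 - S + 1 = d + 1 + 1 := by omega
        rw [this]
        ring
      have h6 : (S * (aY + aV) + aY) * ℓ = S * (aY + aV) * ℓ + aY * ℓ := by ring
      omega
    exact mul_le_mul h1 h2 (pow_nonneg hA0.le _) (pow_nonneg hB0.le _)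

end Pool.Agent.H17.CEL
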